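import Pool.Agent.H93.EB.Basic
import Pool.Agent.H28.EN.Defs
import Pool.Agent.H70.EN.Targets

/-!
# The energy argument for structure on windows: one level, statements
-/

set_option autoImplicit false

open Finset Pool.Agent.H6.N4D Pool.Agent.H93.EB Pool.Agent.H28.EN

namespace Pool.Agent.H78.N4.LEV

/-- the five tests and the regularity of the window number `j` -/
noncomputable def five (lam : ℕ → ℝ) (q L n : ℕ) (tV tW al : ℝ) (g : ℕ → ℕ → ℂ) : ℝ :=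
  zz lam q (2 ^ 15 * L) n tV (fun _ => 1) ^ 2 + zz lam q (2 ^ 15 * L) n tV (g 0) ^ 2 +
    zz lam q (2 ^ 15 * L) n tV (g 1) ^ 2 + zz lam q (2 ^ 15 * L) n tW (fun _ => 1) ^ 2 +
    zz lam q (2 ^ 15 * L) n al (fun _ => 1) ^ 2 + ind (¬ Reg lam L n)

/-- ONEF. The main inequality for one window and one prime number, with given frequencies of the
largest correlations. -/
def T_ONEF : Prop := ∃ C : ℝ, 0 < C ∧ ∀ (lam : ℕ → ℝ) (q L J n : ℕ) (η : ℝ)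
  (tV be al : ℕ → ℝ) (tW : ℝ),
  (∀ m, |lam m| ≤ 1) → 0 < η → η ≤ 1 → 1 ≤ q → 1 ≤ L → 1 ≤ J → 100 * q ≤ 2 ^ 15 * L →
  (∀ j < J, ‖cr lam (2 ^ 15 * L) (n + j * (2 ^ 15 * L)) (tV j)‖ =
    M lam (2 ^ 15 * L) (n + j * (2 ^ 15 * L))) →
  ‖cr lam (J * (2 ^ 15 * L)) n tW‖ = M lam (J * (2 ^ 15 * L)) n →
  (∀ j < J, ‖crq lam q (2 ^ 15 * L) (n + j * (2 ^ 15 * L)) (be j)‖ =
    Mq lam q (2 ^ 15 * L) (n + j * (2 ^ 15 * L))) →
  (∀ j < J, ∃ b : ℤ, nd (al j - be j - (b : ℝ) / q) ≤ 1 / 10 ^ 4 / ((2 ^ 15 * L : ℕ) : ℝ)) →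
  ∃ g : ℕ → ℕ → ℕ → ℂ,
    (∀ j i, BV (2 ^ 15 * L) (n + j * (2 ^ 15 * L)) (g j i)) ∧
    (∑ j ∈ range J, phi (Mq lam q (2 ^ 15 * L) (n + j * (2 ^ 15 * L)))) / J -
        phi (Mq lam q (J * (2 ^ 15 * L)) n) ≤
      (1 + η) * ((∑ j ∈ range J, phi (M lam (2 ^ 15 * L) (n + j * (2 ^ 15 * L)))) / J -
        phi (M lam (J * (2 ^ 15 * L)) n)) +
      C / η * ((∑ j ∈ range J,
        five lam q L (n + j * (2 ^ 15 * L)) (tV j) tW (al j) (g j)) / J)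

/-- the mean over the windows and the primes of the level `m` of the square of the test -/
noncomputable def tst (lam : ℕ → ℝ) (X m : ℕ) (α : ℕ → ℕ → ℝ) (g : ℕ → ℕ → ℕ → ℂ) : ℝ :=
  lg X (fun n => ∑ q ∈ QQ m, 1 / (q : ℝ) * zz lam q (2 ^ m) n (α n q) (g n q) ^ 2)

/-- LEV. The inequality for one level. -/
def T_LEV : Prop := ∃ (C : ℝ) (m₁ : ℕ), 0 < C ∧ ∀ (X m A : ℕ) (lam : ℕ → ℝ) (η : ℝ),
  3 ≤ X → m₁ ≤ m → 2 ≤ A → 0 < η → η ≤ 1 → Lio lam →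
  ∃ β : ℕ → ℕ → ℝ, ∀ α : ℕ → ℕ → ℝ,
    (∀ n, ∀ q ∈ QQ m, ∃ b : ℤ, nd (α n q - β n q - (b : ℝ) / q) ≤ 1 / 10 ^ 4 / 2 ^ m) →
    ∃ (α' : ℕ → ℕ → ℝ) (g : ℕ → ℕ → ℕ → ℕ → ℂ),
      (∀ i n, ∀ q ∈ QQ m, BV (2 ^ m) n (g i n q)) ∧
      (t lam X (m - m / 500) - t lam X (A * m - m / 100)) * Real.log X ≤
        (1 + η) * ((t lam X m - t lam X (A * m)) * Real.log X) +
        C / η * ((∑ i ∈ range 4, tst lam X m (fun n _ => α' i n) (g i)) +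
          tst lam X m α (fun _ _ _ => 1) +
          lg X (fun n => ind (¬ Reg lam (2 ^ (m - 15)) n)) +
          (1 / 2) ^ (m / 2000) * Real.log X + A * m + 1)

end Pool.Agent.H78.N4.LEV
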