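import Pool.Agent.H78.N4.LEV
import Pool.Agent.H72.EN.Targets4

/-!
# The energy argument for structure on windows: one level, jump tests at maximal frequencies
-/

set_option autoImplicit false

open Finset Pool.Agent.H6.N4D Pool.Agent.H93.EB Pool.Agent.H28.EN Pool.Agent.H72.EN
open Pool.Agent.H78.N4.LEV

namespace Pool.Agent.H78.N4.LV4

/-- the five tests and the regularity of one window -/
noncomputable def fiv (lam : ℕ → ℝ) (q L n : ℕ) (tV tW al : ℝ) (g : ℕ → ℕ → ℂ) : ℝ :=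
  zz lam q (2 ^ 15 * L) n tV (fun _ => 1) ^ 2 + zz lam q (2 ^ 15 * L) n tV (g 0) ^ 2 +
    zz lam q (2 ^ 15 * L) n tV (g 1) ^ 2 + zz lam q (2 ^ 15 * L) n tW (fun _ => 1) ^ 2 +
    zj lam q (2 ^ 15 * L) n al + ind (¬ Reg lam L n)

/-- the sum of the jump tests over the primes -/
noncomputable def js (lam : ℕ → ℝ) (m : ℕ) (α : ℕ → ℕ → ℝ) (n : ℕ) : ℝ :=
  ∑ q ∈ QQ m, 1 / (q : ℝ) * zj lam q (2 ^ m) n (α n q)

lemma bj_eq (lam : ℕ → ℝ) (X m : ℕ) (α : ℕ → ℕ → ℝ) : bj lam X m α = lg X (js lam m α) := rfl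

lemma zj_nonneg (lam : ℕ → ℝ) (q N n : ℕ) (α : ℝ) : 0 ≤ zj lam q N n α := by
  unfold zj
  exact mul_nonneg (by positivity) (ind_nonneg _)

lemma zj_le (lam : ℕ → ℝ) (q N n : ℕ) (α : ℝ) :
    zj lam q N n α ≤ zz lam q N n α (fun _ => 1) ^ 2 := by
  unfold zj
  have h1 := (abs_le.1 (ind_le_one (63 / 100 ≤ Mq lam q N n))).2
  have h2 : 0 ≤ zz lam q N n α (fun _ => 1) ^ 2 := by positivity
  nlinarith

lemma js_nonneg (lam : ℕ → ℝ) (m : ℕ) (α : ℕ → ℕ → ℝ) (n : ℕ) : 0 ≤ js lam m α n := by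
  unfold js
  exact sum_nonneg fun q _ => mul_nonneg (by positivity) (zj_nonneg _ _ _ _ _)

lemma js_le (lam : ℕ → ℝ) (hl : ∀ n, |lam n| ≤ 1) (m : ℕ) (hm : 400 ≤ m)
    (hQ : ∑ q ∈ QQ m, 1 / (q : ℝ) ≤ 3) (α : ℕ → ℕ → ℝ) (n : ℕ) : |js lam m α n| ≤ 27 := by
  rw [abs_of_nonneg (js_nonneg lam m α n)]
  have h1 := (abs_le.1 (fs_le lam hl m hm hQ α (fun _ _ _ => 1) (fun n q _ => BV_one _ _) n)).2
  refine le_trans ?_ h1
  unfold js fs
  exact sum_le_sum fun q _ => mul_le_mul_of_nonneg_left (zj_le _ _ _ _ _) (by positivity)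

lemma js_shift (lam : ℕ → ℝ) (hl : ∀ n, |lam n| ≤ 1) (m : ℕ) (hm : 400 ≤ m)
    (hQ : ∑ q ∈ QQ m, 1 / (q : ℝ) ≤ 3) (α : ℕ → ℕ → ℝ) (X J K j : ℕ) (hj : j < J) :
    lg X (fun n => js lam m α (n + j * K)) ≤ bj lam X m α + 81 * hs (J * K) := by
  have h1 := lg_shift X (j * K) (js lam m α) (js_le lam hl m hm hQ α)
  have h2 := hs_mono (Nat.mul_le_mul_right K hj.le)
  rw [bj_eq]
  have h3 := (abs_le.1 h1).2
  linarith

/-- the sum of the five tests is the sum of the families -/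
lemma fiv_eq (lam : ℕ → ℝ) (m : ℕ) (hm : 15 ≤ m) (tV tW : ℕ → ℝ) (α : ℕ → ℕ → ℝ)
    (gg : ℕ → ℕ → ℕ → ℕ → ℕ → ℂ) (j n : ℕ) :
    ∑ q ∈ QQ m, 1 / (q : ℝ) * fiv lam q (2 ^ (m - 15)) (n + j * 2 ^ m) (tV (n + j * 2 ^ m)) (tW n)
        (α (n + j * 2 ^ m) q) (gg n q j) =
      (∑ i ∈ range 4, fs lam m (fun n _ => fa (2 ^ m) tV tW i j n) (fg (2 ^ m) gg i j)
        (n + j * 2 ^ m)) + js lam m α (n + j * 2 ^ m) +
      (∑ q ∈ QQ m, 1 / (q : ℝ)) * ind (¬ Reg lam (2 ^ (m - 15)) (n + j * 2 ^ m)) := by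
  have hK : 2 ^ 15 * 2 ^ (m - 15) = 2 ^ m := by
    rw [← pow_add]; congr 1; omega
  have h0 : n + j * 2 ^ m - j * 2 ^ m = n := Nat.add_sub_cancel _ _
  simp only [sum_range_succ, sum_range_zero, zero_add]
  unfold fs js fiv fa fg
  rw [hK]
  simp only [h0, Nat.zero_ne_one, Nat.reduceEqDiff, if_false, if_true, or_false,
    Nat.sub_self, le_add_iff_nonneg_left, zero_le, and_true, or_true]
  rw [sum_mul, ← sum_add_distrib, ← sum_add_distrib, ← sum_add_distrib, ← sum_add_distrib,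
    ← sum_add_distrib]
  apply sum_congr rfl
  intro q _
  norm_num
  ring

theorem pf_LV4 (h1 : Pool.Agent.H72.EN.T_ON3) (h2 : Pool.Agent.H70.EN.T_MAT)
    (h3 : Pool.Agent.H70.EN.T_MBD) (h4 : Pool.Agent.H70.EN.T_SC1)
    (h5 : Pool.Agent.H70.EN.T_SC2) (h6 : Pool.Agent.H70.EN.T_QMS) :
    Pool.Agent.H72.EN.T_LV4 := by
  obtain ⟨C, hC, H1⟩ := h1
  obtain ⟨C₁, hC₁, H4⟩ := h4
  obtain ⟨C₂, hC₂, H5⟩ := h5
  obtain ⟨m₀, H6⟩ := h6
  refine ⟨C₁ + C₂ + 12 + 2000 * C, max m₀ 400, by positivity, ?_⟩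
  intro X m A lam η hX hm hA hη hη1 hlam be hbe α hα
  have hm0 : m₀ ≤ m := (le_max_left _ _).trans hm
  have hm4 : 400 ≤ m := (le_max_right _ _).trans hm
  have hl := lam_abs hlam
  obtain ⟨hμ1, hμ3⟩ := H6 m hm0
  have hK : 2 ^ 15 * 2 ^ (m - 15) = 2 ^ m := by rw [← pow_add]; congr 1; omega
  obtain ⟨J, hJ1, hJK⟩ : ∃ J : ℕ, 1 ≤ J ∧ J * 2 ^ m = 2 ^ (A * m) := by
    refine ⟨2 ^ ((A - 1) * m), Nat.one_le_two_pow, ?_⟩
    rw [← pow_add]; congr 1
    obtain ⟨a, rfl⟩ : ∃ a, A = a + 1 := ⟨A - 1, by omega⟩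
    rw [Nat.add_sub_cancel]; ring
  -- the frequencies
  choose tV _ _ htV using fun n => (h2 lam 0 (2 ^ m) n).1
  choose tW _ _ htW using fun n => (h2 lam 0 (2 ^ (A * m)) n).1
  have hgg0 : ∀ n q, ∃ g : ℕ → ℕ → ℕ → ℂ, (q ∈ QQ m →
      (∀ j i, BV (2 ^ m) (n + j * 2 ^ m) (g j i)) ∧
      (∑ j ∈ range J, phi (Mq lam q (2 ^ m) (n + j * 2 ^ m))) / J -
        phi (Mq lam q (2 ^ (A * m)) n) ≤
      (1 + η) * ((∑ j ∈ range J, phi (M lam (2 ^ m) (n + j * 2 ^ m))) / J -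
        phi (M lam (2 ^ (A * m)) n)) +
      C / η * ((∑ j ∈ range J, fiv lam q (2 ^ (m - 15)) (n + j * 2 ^ m) (tV (n + j * 2 ^ m))
        (tW n) (α (n + j * 2 ^ m) q) (g j)) / J)) := by
    intro n q
    by_cases hq : q ∈ QQ m
    · have h7 := H1 lam q (2 ^ (m - 15)) J n η (fun j => tV (n + j * 2 ^ m)) (tW n)
        (fun j => be (n + j * 2 ^ m) q) (fun j => α (n + j * 2 ^ m) q) hl hη hη1
        (mem_QQ_bounds hq).1 Nat.one_le_two_pow hJ1
      rw [hK, hJK] at h7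
      obtain ⟨g, hg1, hg2⟩ := h7 (QQ_le hm4 hq) (fun j _ => (htV _).symm) (htW n).symm
        (fun j _ => hbe _ q hq) (fun j _ => by
          obtain ⟨b, hb⟩ := hα (n + j * 2 ^ m) q hq
          refine ⟨b, ?_⟩
          push_cast
          rw [← div_div]
          exact hb)
      refine ⟨g, fun _ => ⟨hg1, ?_⟩⟩
      unfold fiv
      rw [hK]
      exact hg2
    · exact ⟨fun _ _ _ => 0, fun h => absurd h hq⟩
  choose gg hgg using hgg0
  have hmain := lg_main X J (2 ^ m) (QQ m) (fun q => 1 / (q : ℝ)) (fun q _ => by positivity)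
    (fun q n => phi (Mq lam q (2 ^ m) n)) (fun q n => phi (Mq lam q (2 ^ (A * m)) n))
    (fun n => phi (M lam (2 ^ m) n)) (fun n => phi (M lam (2 ^ (A * m)) n))
    (fun q n j => fiv lam q (2 ^ (m - 15)) (n + j * 2 ^ m) (tV (n + j * 2 ^ m))
        (tW n) (α (n + j * 2 ^ m) q) (gg n q j)) η (C / η) (fun n q hq => (hgg n q hq).2)
  have hBV : ∀ i j n, ∀ q ∈ QQ m, BV (2 ^ m) n (fg (2 ^ m) gg i j n q) := fun i j n q hq =>
    fg_BV (2 ^ m) gg (QQ m) (fun n q hq j i => (hgg n q hq).1 j i) i j n q hq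
  -- the worst shift
  have hjj : ∀ i : ℕ, ∃ j : ℕ, ∀ j' ∈ range J,
      tst lam X m (fun n _ => fa (2 ^ m) tV tW i j' n) (fg (2 ^ m) gg i j') ≤
        tst lam X m (fun n _ => fa (2 ^ m) tV tW i j n) (fg (2 ^ m) gg i j) := by
    intro i
    obtain ⟨j, _, hj⟩ := exists_max_image (range J)
      (fun j => tst lam X m (fun n _ => fa (2 ^ m) tV tW i j n) (fg (2 ^ m) gg i j))
      ⟨0, mem_range.2 hJ1⟩
    exact ⟨j, hj⟩
  choose jj hjj using hjj
  refine ⟨fun i n => fa (2 ^ m) tV tW i (jj i) n, fun i n q => fg (2 ^ m) gg i (jj i) n q,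
    fun i n q hq => hBV i (jj i) n q hq, ?_⟩
  -- the sizes
  have hlogX : 0 ≤ Real.log X := Real.log_nonneg (by exact_mod_cast (by omega : 1 ≤ X))
  obtain ⟨E, hE⟩ : ∃ E : ℝ, E = (1 / 2) ^ (m / 2000) * Real.log X + A * m + 1 := ⟨_, rfl⟩
  have hE0 : 0 ≤ E := by rw [hE]; positivity
  have hhs : hs (J * 2 ^ m) ≤ E := by
    rw [hJK]
    have h7 := hs_le (2 ^ (A * m))
    have h8 : Real.log ((2 ^ (A * m) : ℕ) : ℝ) ≤ A * m := by
      rw [Nat.cast_pow, Real.log_pow]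
      have h9 : Real.log ((2 : ℕ) : ℝ) ≤ 1 := by
        have := Real.log_two_lt_d9
        norm_num at this ⊢
        linarith
      have h10 : (0 : ℝ) ≤ ((A * m : ℕ) : ℝ) := Nat.cast_nonneg _
      calc ((A * m : ℕ) : ℝ) * Real.log ((2 : ℕ) : ℝ) ≤ ((A * m : ℕ) : ℝ) * 1 :=
            mul_le_mul_of_nonneg_left h9 h10
        _ = A * m := by push_cast; ring
    have h9 : 0 ≤ (1 / 2 : ℝ) ^ (m / 2000) * Real.log X := by positivity
    rw [hE]
    linarith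
  obtain ⟨I, hI⟩ : ∃ I : ℝ, I = lg X (fun n => ind (¬ Reg lam (2 ^ (m - 15)) n)) := ⟨_, rfl⟩
  have hI0 : 0 ≤ I := by rw [hI]; exact lg_nonneg fun n _ => ind_nonneg _
  obtain ⟨S, hS⟩ : ∃ S : ℝ, S = ∑ i ∈ range 4,
      tst lam X m (fun n _ => fa (2 ^ m) tV tW i (jj i) n) (fg (2 ^ m) gg i (jj i)) := ⟨_, rfl⟩
  obtain ⟨S', hS'⟩ : ∃ S' : ℝ, S' = bj lam X m α := ⟨_, rfl⟩
  have hS0 : 0 ≤ S := by
    rw [hS]
    exact sum_nonneg fun i _ => tst_nonneg _ _ _ _ _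
  have hS'0 : 0 ≤ S' := by
    rw [hS', bj_eq]
    exact lg_nonneg fun n _ => js_nonneg lam m α n
  -- the tests
  have hE5 : ∀ j ∈ range J, lg X (fun n => ∑ q ∈ QQ m, 1 / (q : ℝ) *
      fiv lam q (2 ^ (m - 15)) (n + j * 2 ^ m) (tV (n + j * 2 ^ m))
        (tW n) (α (n + j * 2 ^ m) q) (gg n q j)) ≤ S + S' + 3 * I + 414 * E := by
    intro j hj
    have hj' := mem_range.1 hj
    have h7 : (fun n => ∑ q ∈ QQ m, 1 / (q : ℝ) *
        fiv lam q (2 ^ (m - 15)) (n + j * 2 ^ m) (tV (n + j * 2 ^ m))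
        (tW n) (α (n + j * 2 ^ m) q) (gg n q j)) = fun n =>
        (∑ i ∈ range 4, fs lam m (fun n _ => fa (2 ^ m) tV tW i j n) (fg (2 ^ m) gg i j)
          (n + j * 2 ^ m)) + js lam m α (n + j * 2 ^ m) +
        (∑ q ∈ QQ m, 1 / (q : ℝ)) * ind (¬ Reg lam (2 ^ (m - 15)) (n + j * 2 ^ m)) := by
      funext n
      exact fiv_eq lam m (by omega) tV tW α gg j n
    rw [h7, lg_add, lg_add, lg_mul, lg_sum]
    have h8 : ∑ i ∈ range 4, lg X (fun n => fs lam m (fun n _ => fa (2 ^ m) tV tW i j n)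
        (fg (2 ^ m) gg i j) (n + j * 2 ^ m)) ≤ S + 324 * E := by
      calc _ ≤ ∑ i ∈ range 4, (tst lam X m (fun n _ => fa (2 ^ m) tV tW i (jj i) n)
            (fg (2 ^ m) gg i (jj i)) + 81 * E) := by
            apply sum_le_sum
            intro i _
            have h9 := fs_shift lam hl m hm4 hμ3 (fun n _ => fa (2 ^ m) tV tW i j n)
              (fg (2 ^ m) gg i j) (hBV i j) X J (2 ^ m) j hj'
            have h10 := hjj i j hj
            linarith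
        _ = S + 324 * E := by
            rw [sum_add_distrib, ← hS, sum_const, card_range, nsmul_eq_mul]
            push_cast; ring
    have h9 := js_shift lam hl m hm4 hμ3 α X J (2 ^ m) j hj'
    rw [← hS'] at h9
    have h10 := lg_shift X (j * 2 ^ m) (fun n => ind (¬ Reg lam (2 ^ (m - 15)) n)) (c := 1)
      (fun n => ind_le_one _)
    rw [← hI] at h10
    have h11 := (abs_le.1 h10).2
    have h12 := hs_mono (Nat.mul_le_mul_right (2 ^ m) hj'.le)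
    have h13 : lg X (fun n => ind (¬ Reg lam (2 ^ (m - 15)) (n + j * 2 ^ m))) ≤ I + 3 * E := by
      linarith
    have h14 : 0 ≤ lg X (fun n => ind (¬ Reg lam (2 ^ (m - 15)) (n + j * 2 ^ m))) :=
      lg_nonneg fun n _ => ind_nonneg _
    have h15 : (∑ q ∈ QQ m, 1 / (q : ℝ)) *
        lg X (fun n => ind (¬ Reg lam (2 ^ (m - 15)) (n + j * 2 ^ m))) ≤ 3 * (I + 3 * E) :=
      mul_le_mul hμ3 h13 h14 (by norm_num)
    linarith
  have hJ0 : (0 : ℝ) < J := by exact_mod_cast hJ1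
  have hE6 : (∑ j ∈ range J, lg X (fun n => ∑ q ∈ QQ m, 1 / (q : ℝ) *
      fiv lam q (2 ^ (m - 15)) (n + j * 2 ^ m) (tV (n + j * 2 ^ m))
        (tW n) (α (n + j * 2 ^ m) q) (gg n q j))) / J ≤ S + S' + 3 * I + 414 * E := by
    rw [div_le_iff₀ hJ0]
    calc _ ≤ ∑ _j ∈ range J, (S + S' + 3 * I + 414 * E) := sum_le_sum hE5
      _ = _ := by rw [sum_const, card_range, nsmul_eq_mul]; ring
  -- the mean energy
  have hR : (∑ j ∈ range J, lg X (fun n => phi (M lam (2 ^ m) (n + j * 2 ^ m)))) / J ≤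
      lg X (fun n => phi (M lam (2 ^ m) n)) + 3 * E := by
    have h7 := avg_shift X (2 ^ m) J hJ1 (fun n => phi (M lam (2 ^ m) n)) (c := 1) (fun n => by
      rw [abs_of_nonneg (phi_nonneg _)]
      exact phi_le_one (M_le_one lam hl _ _))
    have h8 := (abs_le.1 h7).2
    linarith
  have hL : ∀ q ∈ QQ m, t lam X (m - m / 500) * Real.log X -
      t lam X (A * m - m / 100) * Real.log X - (C₁ + C₂ + 6) * E ≤
      (∑ j ∈ range J, lg X (fun n => phi (Mq lam q (2 ^ m) (n + j * 2 ^ m)))) / J -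
        lg X (fun n => phi (Mq lam q (2 ^ (A * m)) n)) := by
    intro q hq
    have hq1 := (mem_QQ_bounds hq).1
    have hq2 := QQ_le hm4 hq
    have h7 := avg_shift X (2 ^ m) J hJ1 (fun n => phi (Mq lam q (2 ^ m) n)) (c := 2) (fun n => by
      rw [abs_of_nonneg (phi_nonneg _)]
      apply phi_le_two
      refine (h3 lam q (2 ^ m) n hl).2.2.2.trans ?_
      have h8 : (q : ℝ) / ((2 ^ m : ℕ) : ℝ) ≤ 1 := by
        rw [div_le_one (by positivity)]
        exact_mod_cast (by omega : q ≤ 2 ^ m)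
      linarith)
    have h8 := (abs_le.1 h7).1
    have h9 := H4 X m q lam hX hlam hq
    have h10 := H5 X m q A lam hX hlam hA hq
    rw [t_mul lam X _ hX, t_mul lam X _ hX]
    have h11 : (1 / 2 : ℝ) ^ (m / 2000) * Real.log X + m + 1 ≤ E := by
      have h12 : (m : ℝ) ≤ A * m := by
        have : (1 : ℝ) ≤ A := by exact_mod_cast (by omega : 1 ≤ A)
        nlinarith [(Nat.cast_nonneg m : (0 : ℝ) ≤ m)]
      rw [hE]; linarith
    have h12 := mul_le_mul_of_nonneg_left h11 hC₁.le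
    rw [← hE] at h10
    linarith
  have hL2 : (∑ q ∈ QQ m, 1 / (q : ℝ)) * (t lam X (m - m / 500) * Real.log X -
      t lam X (A * m - m / 100) * Real.log X - (C₁ + C₂ + 6) * E) ≤
      ∑ q ∈ QQ m, 1 / (q : ℝ) *
        ((∑ j ∈ range J, lg X (fun n => phi (Mq lam q (2 ^ m) (n + j * 2 ^ m)))) / J -
        lg X (fun n => phi (Mq lam q (2 ^ (A * m)) n))) := by
    rw [sum_mul]
    apply sum_le_sum
    intro q hq
    exact mul_le_mul_of_nonneg_left (hL q hq) (by positivity)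
  have hgoal : (∑ i ∈ range 4, bv lam X m (fun n _ => fa (2 ^ m) tV tW i (jj i) n)
      (fun n q => fg (2 ^ m) gg i (jj i) n q)) + bj lam X m α +
      lg X (fun n => ind (¬ Reg lam (2 ^ (m - 15)) n)) +
      (1 / 2) ^ (m / 2000) * Real.log X + A * m + 1 = S + S' + I + E := by
    have h7 : (∑ i ∈ range 4, bv lam X m (fun n _ => fa (2 ^ m) tV tW i (jj i) n)
        (fun n q => fg (2 ^ m) gg i (jj i) n q)) = S := hS.symm
    rw [h7, hE, hI, hS']; ring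
  rw [hgoal, sub_mul]
  rw [← t_mul lam X (A * m) hX] at hmain
  rw [← t_mul lam X m hX] at hR
  generalize t lam X (m - m / 500) * Real.log X = T₁ at hL2 ⊢
  generalize t lam X (A * m - m / 100) * Real.log X = T₂ at hL2 ⊢
  generalize hμ : (∑ q ∈ QQ m, 1 / (q : ℝ)) = μ at hL2 hmain hμ1 hμ3
  rw [sub_mul (t lam X m)]
  generalize t lam X m * Real.log X = R₁ at hR ⊢
  generalize t lam X (A * m) * Real.log X = R₂ at hmain ⊢
  have hCη : 0 ≤ C / η := by positivity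
  have hR2 : (1 + η) * (μ * ((∑ j ∈ range J, lg X (fun n => phi (M lam (2 ^ m)
      (n + j * 2 ^ m)))) / J - R₂)) ≤ (1 + η) * (μ * (R₁ + 3 * E - R₂)) := by
    apply mul_le_mul_of_nonneg_left _ (by linarith)
    apply mul_le_mul_of_nonneg_left _ (by linarith)
    linarith
  have hE7 := mul_le_mul_of_nonneg_left hE6 hCη
  have hfin : μ * (T₁ - T₂ - (C₁ + C₂ + 6) * E - (1 + η) * (R₁ + 3 * E - R₂)) ≤
      C / η * (S + S' + 3 * I + 414 * E) := by
    have h7 := hL2.trans (hmain.trans (add_le_add hR2 hE7))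
    linarith
  have hfin2 := div_arith hμ1 (by positivity) hfin
  have hinv : 1 ≤ 1 / η := by rw [le_div_iff₀ hη]; linarith
  have hs1 : (C₁ + C₂ + 12) * E ≤ (C₁ + C₂ + 12) * E * (1 / η) :=
    le_mul_of_one_le_right (by positivity) hinv
  have hs2 : (1 + η) * (3 * E) ≤ 6 * E := by nlinarith
  have hs3 : 4 * (C / η * (S + S' + 3 * I + 414 * E)) ≤ 2000 * C / η * (S + S' + I + E) := by
    have h7 : 4 * (S + S' + 3 * I + 414 * E) ≤ 2000 * (S + S' + I + E) := by linarith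
    have h8 := mul_le_mul_of_nonneg_left h7 hCη
    calc 4 * (C / η * (S + S' + 3 * I + 414 * E)) = C / η * (4 * (S + S' + 3 * I + 414 * E)) := by
          ring
      _ ≤ C / η * (2000 * (S + S' + I + E)) := h8
      _ = _ := by ring
  have hs4 : (C₁ + C₂ + 12) * E * (1 / η) ≤ (C₁ + C₂ + 12) / η * (S + S' + I + E) := by
    have h7 : (C₁ + C₂ + 12) * E * (1 / η) = (C₁ + C₂ + 12) / η * E := by ring
    rw [h7]
    apply mul_le_mul_of_nonneg_left _ (by positivity)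
    linarith
  have hs5 : (C₁ + C₂ + 12 + 2000 * C) / η * (S + S' + I + E) =
      (C₁ + C₂ + 12) / η * (S + S' + I + E) + 2000 * C / η * (S + S' + I + E) := by
    ring
  rw [hs5]
  linarith

end Pool.Agent.H78.N4.LV4
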