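import Pool.Agent.H78.N4.LEVALL
import Pool.Agent.H78.N4.LV4

/-!
# One level with jump tests at maximal frequencies, from the statement on one window
-/

set_option autoImplicit false

namespace Pool.Agent.H78.N4.LV4

open Pool.Agent in
theorem pf_LV4_all (h : Pool.Agent.H72.EN.T_ON3) : Pool.Agent.H72.EN.T_LV4 :=
  pf_LV4 h H67.ENM.pf_MAT (H67.ENM.pf_MBD H67.ENM.pf_MAT)
    Pool.Agent.H78.N4.LEV.sc12.1 Pool.Agent.H78.N4.LEV.sc12.2 H20.ENM.pf_QMS

end Pool.Agent.H78.N4.LV4
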