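import Pool.Agent.H78.N4.ON3
import Pool.Agent.H78.N4.LV4ALL

/-!
# One level with jump tests at maximal frequencies, without hypotheses
-/

set_option autoImplicit false

namespace Pool.Agent.H78.N4.ON3

open Pool.Agent in
theorem cl3 : Pool.Agent.H72.EN.T_CL3 := by
  have gre := H1.ENW.pf_GRE
  have top := H23.EN.pf_TOP gre
  have unf := H60.EN1.pf_UNF gre top H46.EN.pf_SPL
  have nds := H73.EN.pf_NDS
  have geo := H60.EN1.pf_GEO
  exact H78.N4.CL3.pf_CL3 top H41.EN.pf_MQF (H88.EN.pf_FAR geo) H5.EN.pf_SLO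
    (H90.EN.pf_PK1 H69.EN.pf_MID unf nds) (H60.EN1.pf_PK2 unf nds geo) H23.EN.pf_DIF
    H38.EN.pf_TST H90.EN.pf_PHI

open Pool.Agent in
theorem on3 : Pool.Agent.H72.EN.T_ON3 := by
  have gre := H1.ENW.pf_GRE
  have top := H23.EN.pf_TOP gre
  have spl := H46.EN.pf_SPL
  have unf := H60.EN1.pf_UNF gre top spl
  have nds := H73.EN.pf_NDS
  have geo := H60.EN1.pf_GEO
  have far := H88.EN.pf_FAR geo
  have pk1 := H90.EN.pf_PK1 H69.EN.pf_MID unf nds
  have pk2 := H60.EN1.pf_PK2 unf nds geo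
  have brk := H28.EN.pf_BRK top far H5.EN.pf_SLO pk1 pk2 H23.EN.pf_DIF H38.EN.pf_TST
    H90.EN.pf_PHI
  have clb := H40.EN.pf_CLB gre top H41.EN.pf_MQF H90.EN.pf_PHI
  exact H78.N4.ON3.pf_ON3 gre top spl cl3 clb brk

/-- LV4, without hypotheses -/
theorem lv4 : Pool.Agent.H72.EN.T_LV4 := Pool.Agent.H78.N4.LV4.pf_LV4_all on3

end Pool.Agent.H78.N4.ON3
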