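import Pool.Agent.H28.EN.CL2
import Pool.Agent.H72.EN.Targets3

/-!
# The upper bound on a window, with the jump test restricted to large correlations
-/

set_option autoImplicit false

open Finset Pool.Agent.H6.N4D Pool.Agent.H93.EB Pool.Agent.H28.EN Pool.Agent.H72.EN

namespace Pool.Agent.H78.N4.CL3

lemma zj_nonneg (lam : ℕ → ℝ) (q N n : ℕ) (α : ℝ) : 0 ≤ zj lam q N n α := by
  unfold zj ind
  split_ifs <;> positivity

lemma zj_eq {lam : ℕ → ℝ} {q N n : ℕ} {α : ℝ} (h : 63 / 100 ≤ Mq lam q N n) :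
    zj lam q N n α = zz lam q N n α (fun _ => 1) ^ 2 := by
  unfold zj ind
  rw [if_pos h, mul_one]

theorem pf_CL3 (h2 : Pool.Agent.H28.EN.T_TOP)
    (h3 : Pool.Agent.H28.EN.T_MQF)
    (h4 : Pool.Agent.H28.EN.T_FAR)
    (h5 : Pool.Agent.H28.EN.T_SLO)
    (h6 : Pool.Agent.H28.EN.T_PK1)
    (h7 : Pool.Agent.H28.EN.T_PK2)
    (h8 : Pool.Agent.H28.EN.T_DIF)
    (h9 : Pool.Agent.H28.EN.T_TST)
    (h10 : Pool.Agent.H28.EN.T_PHI)
    : T_CL3 := by
  intro lam q L n θ φ β α hl hq hL hqL ht hG hβ hα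
  have hN : 1 ≤ 2 ^ 15 * L := by omega
  have hqN : q ≤ 2 ^ 15 * L := by omega
  set N := 2 ^ 15 * L with hNdef
  obtain ⟨_, αq, φq, htq, hGq⟩ := h2 (fq lam q) N n
  obtain ⟨bv1, t1, t2, t3⟩ := h9 lam q N n θ hN hq hqN hl
  obtain ⟨_, _, s2, s3⟩ := h9 lam q N n αq hN hq hqN hl
  have hjump := jump hl hq hN hqN hβ hα
  have hMq : Mq lam q N n = G (fq lam q) N n αq φq := by rw [h3, hGq]
  have hM1 : M lam N n ≤ 1 := M_le_one h2 hl hN
  have hz := t1 φ
  have hz0 : 0 ≤ zz lam q N n θ (fun _ => 1) := norm_nonneg _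
  have hJ0 : 0 ≤ zz lam q N n α (fun _ => 1) := norm_nonneg _
  have hJ3 : zz lam q N n α (fun _ => 1) ≤ 3 := (h9 lam q N n α hN hq hqN hl).2.2.2 _ bv1
  obtain ⟨p1, p2, p3, p4, p5, p6⟩ := h10
  have hzj := zj_nonneg lam q N n α
  have hind : 0 ≤ ind (¬ Reg lam L n) := by unfold ind; split_ifs <;> norm_num
  have hp6 := p6 (M lam N n) (G (dq lam q) N n θ φ)
  have hzsq : G (dq lam q) N n θ φ ^ 2 ≤ zz lam q N n θ (fun _ => 1) ^ 2 := by
    rw [← sq_abs]; exact pow_le_pow_left₀ (abs_nonneg _) hz 2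
  by_cases hM62 : M lam N n ≤ 62 / 100
  · -- small correlation
    refine ⟨fun _ => 1, bv1, ?_⟩
    have h01 : phi (M lam N n) = 0 := by
      unfold phi; rw [max_eq_right (by linarith)]; norm_num
    have h02 : dph (M lam N n) = 0 := by
      unfold dph; rw [max_eq_right (by linarith)]; norm_num
    rw [h01, h02]
    rcases le_total (Mq lam q N n) (63 / 100) with h | h
    · have h03 : phi (Mq lam q N n) = 0 := by
        unfold phi; rw [max_eq_right (by linarith)]; norm_num
      rw [h03]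
      have : 0 ≤ 10 ^ 10 * (zz lam q N n θ (fun _ => 1) ^ 2 +
        zj lam q N n α +
        zz lam q N n θ (fun _ => 1) ^ 2 + ind (¬ Reg lam L n)) := by positivity
      linarith
    · have h04 : 8 / 1000 ≤ zz lam q N n α (fun _ => 1) := by linarith
      rw [zj_eq h]
      have h05 : Mq lam q N n ≤ 4 := by linarith
      have h06 : phi (Mq lam q N n) ≤ phi 4 := p1 _ _ h05
      have h07 : phi 4 ≤ 12 := by unfold phi; norm_num [max_def]
      have h08 : (8 / 1000 : ℝ) ^ 2 ≤ zz lam q N n α (fun _ => 1) ^ 2 :=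
        pow_le_pow_left₀ (by norm_num) h04 2
      nlinarith [sq_nonneg (zz lam q N n θ (fun _ => 1))]
  · push Not at hM62
    by_cases hR : Reg lam L n
    · rcases h5 q N n θ φ αq φq hq hN with ⟨r, s, hr, hs, hcos⟩ | ⟨hf1, hf2⟩
      · -- near
        obtain ⟨g, hg, hdif⟩ := h8 lam q N n θ φ r s hN
        refine ⟨g, hg, ?_⟩
        have e1 : G (fq lam q) N n αq φq = G (fq lam q) N n (th N θ s) (ph N n φ r s) :=
          G_congr (q := q) (fun m hm => fq_zero q m hm) hcos
        obtain ⟨_, _, u2, _⟩ := h9 lam q N n (th N θ s) hN hq hqN hl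
        have e2 := u2 (ph N n φ r s)
        have hM62' : 62 / 100 ≤ M lam N n := hM62.le
        have e3 := peak h6 h7 hl hL hR ht hG hM62' hr hs
        rw [← hNdef] at e3
        have e4 := (abs_le.1 hdif).2
        have e5 : 2 * Real.pi * (|r| + |s|) * zz lam q N n θ g ≤
            (|r| + |s|) ^ 2 * (1 / 1000) + 10 * zz lam q N n θ g ^ 2 / (1 / 1000) :=
          am_gm (by norm_num)
        have e6 : 10 * zz lam q N n θ g ^ 2 / (1 / 1000) = 10 ^ 4 * zz lam q N n θ g ^ 2 := by
          ring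
        have hg0 : 0 ≤ zz lam q N n θ g := norm_nonneg _
        have e7 := near_bound ⟨p1, p2, p3, p4, p5, p6⟩ hM1 hz hg0 (t3 g hg)
          (mq := Mq lam q N n) (by
            rw [hMq, e1, e2]
            rw [hG] at e3
            linarith)
        nlinarith [hzj]
      · -- far
        refine ⟨fun _ => 1, bv1, ?_⟩
        have f1 := h4 (fq lam q) q N n θ φ αq φq hq hN (fun m => abs_fq_le hl q m) hf1 hf2
        have f2 := t2 φ
        have f3 : (q : ℝ) / N ≤ 1 / 100 := by
          have hN' : (0 : ℝ) < N := by exact_mod_cast hN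
          rw [div_le_iff₀ hN']
          have : (100 : ℝ) * q ≤ N := by exact_mod_cast hqL
          linarith
        have f4 : phi (Mq lam q N n) ≤ G (dq lam q) N n θ φ ^ 2 := by
          rw [hMq]
          unfold phi
          rcases le_total (G (fq lam q) N n αq φq - 63 / 100) 0 with h | h
          · rw [max_eq_right h]; nlinarith [sq_nonneg (G (dq lam q) N n θ φ)]
          · rw [max_eq_left h]
            have h7 : G (fq lam q) N n αq φq - 63 / 100 ≤ - G (dq lam q) N n θ φ := by
              rw [hG] at f2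
              linarith
            nlinarith
        nlinarith [hzj,
          sq_nonneg (zz lam q N n θ (fun _ => 1))]
    · -- irregular windows
      refine ⟨fun _ => 1, bv1, ?_⟩
      have g1 : ind (¬ Reg lam L n) = 1 := by unfold ind; rw [if_pos hR]
      have g2 : Mq lam q N n ≤ 5 := by linarith
      have g3 : phi (Mq lam q N n) ≤ phi 5 := p1 _ _ g2
      have g4 : phi 5 ≤ 20 := by unfold phi; norm_num [max_def]
      rw [g1]
      nlinarith [hzj,
        sq_nonneg (zz lam q N n θ (fun _ => 1))]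

end Pool.Agent.H78.N4.CL3
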