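import Pool.Agent.H78.N4.LEV
import Pool.Agent.H28.EN.BRK
import Pool.Agent.H28.EN.CL2
import Pool.Agent.H40.EN.CLB
import Pool.Agent.H23.EN.DIF
import Pool.Agent.H88.EN.FAR
import Pool.Agent.H60.EN1.GEO
import Pool.Agent.H1.ENW.GRE
import Pool.Agent.H69.EN.MID
import Pool.Agent.H41.EN.MQF
import Pool.Agent.H73.EN.NDS
import Pool.Agent.H51.EN1.ON2
import Pool.Agent.H90.EN.PHI
import Pool.Agent.H90.EN.PK1
import Pool.Agent.H60.EN1.PK2
import Pool.Agent.H5.EN.SLO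
import Pool.Agent.H46.EN.SPL
import Pool.Agent.H23.EN.TOP
import Pool.Agent.H38.EN.TST
import Pool.Agent.H60.EN1.UNF
import Pool.Agent.H88.ENM.CMP
import Pool.Agent.H17.EN.LDQ
import Pool.Agent.H62.ENM.LG1
import Pool.Agent.H17.EN.LSH
import Pool.Agent.H67.ENM.MAT
import Pool.Agent.H67.ENM.MBD
import Pool.Agent.H79.EN.MN1
import Pool.Agent.H20.ENM.MNG
import Pool.Agent.H62.ENM.PHI
import Pool.Agent.H20.ENM.QMS
import Pool.Agent.H46.EN.SBG
import Pool.Agent.H17.EN.SBL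
import Pool.Agent.H88.ENM.SC1
import Pool.Agent.H10.ENM.SC2
import Pool.Agent.H35.EN.SCL
import Pool.Agent.H61.ENM.SCV

/-!
# The energy argument for structure on windows: one level, without hypotheses
-/

set_option autoImplicit false

namespace Pool.Agent.H78.N4.LEV

/-- the two forms of the inequality for one window and one prime number -/
theorem onef_of_on2 (h : Pool.Agent.H28.EN.T_ON2) : T_ONEF := by
  obtain ⟨C, hC, h⟩ := h
  refine ⟨C, hC, ?_⟩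
  intro lam q L J n η tV be al tW hl hη hη1 hq hL hJ hqL hV hW hbe hal
  have h1 := h lam q L J n η tV tW be al hl hη hη1 hq hL hJ hqL hV hW hbe (by
    intro j hj
    obtain ⟨b, hb⟩ := hal j hj
    refine ⟨b, hb.trans (le_of_eq ?_)⟩
    rw [div_div])
  exact h1

open Pool.Agent in
theorem on2 : Pool.Agent.H28.EN.T_ON2 := by
  have gre := H1.ENW.pf_GRE
  have top := H23.EN.pf_TOP gre
  have spl := H46.EN.pf_SPL
  have unf := H60.EN1.pf_UNF gre top spl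
  have nds := H73.EN.pf_NDS
  have geo := H60.EN1.pf_GEO
  have far := H88.EN.pf_FAR geo
  have pk1 := H90.EN.pf_PK1 H69.EN.pf_MID unf nds
  have pk2 := H60.EN1.pf_PK2 unf nds geo
  have brk := H28.EN.pf_BRK top far H5.EN.pf_SLO pk1 pk2 H23.EN.pf_DIF H38.EN.pf_TST
    H90.EN.pf_PHI
  have cl2 := H28.EN.pf_CL2 top H41.EN.pf_MQF far H5.EN.pf_SLO pk1 pk2 H23.EN.pf_DIF
    H38.EN.pf_TST H90.EN.pf_PHI
  have clb := H40.EN.pf_CLB gre top H41.EN.pf_MQF H90.EN.pf_PHI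
  exact H51.EN1.pf_ON2 gre top spl cl2 clb brk

open Pool.Agent in
theorem sc12 : H70.EN.T_SC1 ∧ H70.EN.T_SC2 := by
  have mat := H67.ENM.pf_MAT
  have mbd := H67.ENM.pf_MBD mat
  have lg1 := H62.ENM.pf_LG1
  have sbg := H46.EN.pf_SBG mbd (H88.ENM.pf_CMP mat) (H17.EN.pf_SBL mat)
  have mng := H20.ENM.pf_MNG mbd sbg lg1 (H17.EN.pf_LSH lg1)
  have phi := H62.ENM.pf_PHI
  have mn1 := H79.EN.pf_MN1 mng phi
  have scv := H61.ENM.pf_SCV mbd phi (H35.EN.pf_SCL mat mbd) lg1 (H17.EN.D.pf_LDQ lg1)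
  exact ⟨H88.ENM.pf_SC1 mn1 scv, H10.ENM.pf_SC2 mn1 scv⟩

open Pool.Agent in
/-- LEV, without hypotheses -/
theorem pf_LEV_all : T_LEV :=
  pf_LEV (onef_of_on2 on2) H67.ENM.pf_MAT (H67.ENM.pf_MBD H67.ENM.pf_MAT) sc12.1 sc12.2
    H20.ENM.pf_QMS

end Pool.Agent.H78.N4.LEV
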