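import Pool.Agent.H93.EB.Basic
import Pool.Agent.H93.EB.Targets

/-!
# The mean of the largest correlation does not increase with the length
-/

set_option autoImplicit false

namespace Pool.Agent.H78.N4

open Finset Pool.Agent.H6.N4D Pool.Agent.H93.EB

/-- a window with a rest -/
lemma M_rest_le (lam : ℕ → ℝ) (hl : ∀ n, |lam n| ≤ 1) (N H n : ℕ) (hN : 1 ≤ N) (hNH : N ≤ H) :
    M lam H n ≤ M lam (N * (H / N)) n + N / H := by
  have hH : 0 < H := by omega
  have hHr : (0 : ℝ) < H := by exact_mod_cast hH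
  have hle : N * (H / N) ≤ H := Nat.mul_div_le H N
  have hlt : H < N * (H / N) + N := by
    have := Nat.lt_mul_div_succ H (by omega : 0 < N)
    rwa [Nat.mul_succ] at this
  set A := N * (H / N) with hA
  have hA0 : 0 < A := by
    rw [hA]; exact Nat.mul_pos (by omega) (Nat.div_pos hNH (by omega))
  apply M_le
  intro θ
  have h1 : cr lam H n θ = ((A : ℂ) * cr lam A n θ +
      ∑ m ∈ Ioc (n + A) (n + H), (lam m : ℂ) * ee (-(θ * m))) / H := by
    unfold cr
    rw [← sum_Ioc_consecutive _ (Nat.le_add_right n A) (by omega : n + A ≤ n + H)]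
    have : (A : ℂ) ≠ 0 := by exact_mod_cast hA0.ne'
    field_simp
  have h2 : ‖∑ m ∈ Ioc (n + A) (n + H), (lam m : ℂ) * ee (-(θ * m))‖ ≤ N := by
    refine (norm_sum_le _ _).trans ?_
    calc ∑ m ∈ Ioc (n + A) (n + H), ‖(lam m : ℂ) * ee (-(θ * m))‖
        ≤ ∑ m ∈ Ioc (n + A) (n + H), (1 : ℝ) := by
          apply sum_le_sum
          intro m _
          rw [norm_mul, norm_ee, mul_one, Complex.norm_real]
          exact hl m
      _ = ((n + H - (n + A) : ℕ) : ℝ) := by simp
      _ ≤ N := by exact_mod_cast (by omega : n + H - (n + A) ≤ N)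
  rw [h1, norm_div, Complex.norm_natCast, div_le_iff₀ hHr]
  have h3 : ‖cr lam A n θ‖ ≤ M lam A n := le_M lam A n θ
  have h4 : 0 ≤ M lam A n := M_nonneg lam A n
  have h5 : (A : ℝ) ≤ H := by exact_mod_cast hle
  calc ‖(A : ℂ) * cr lam A n θ + ∑ m ∈ Ioc (n + A) (n + H), (lam m : ℂ) * ee (-(θ * m))‖
      ≤ ‖(A : ℂ) * cr lam A n θ‖ + ‖∑ m ∈ Ioc (n + A) (n + H), (lam m : ℂ) * ee (-(θ * m))‖ :=
        norm_add_le _ _
    _ ≤ A * M lam A n + N := by
        rw [norm_mul, Complex.norm_natCast]
        exact add_le_add (mul_le_mul_of_nonneg_left h3 (by positivity)) h2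
    _ ≤ H * M lam A n + N := by
        have := mul_le_mul_of_nonneg_right h5 h4
        linarith
    _ = (M lam A n + N / H) * H := by field_simp

theorem pf_MON : T_MON := by
  refine ⟨4, by norm_num, ?_⟩
  intro X N H lam hX hl hN hNH
  have hH : 0 < H := by omega
  have hHr : (0 : ℝ) < H := by exact_mod_cast hH
  have hXr : (3 : ℝ) ≤ X := by exact_mod_cast hX
  have hlogX : 0 ≤ Real.log X := Real.log_nonneg (by linarith)
  have hlogH : 0 ≤ Real.log H := Real.log_nonneg (by exact_mod_cast hH)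
  set R := H / N with hR
  have hR0 : 0 < R := by rw [hR]; exact Nat.div_pos hNH (by omega)
  have hRr : (0 : ℝ) < R := by exact_mod_cast hR0
  have hNR : N * R ≤ H := Nat.mul_div_le H N
  have hMabs : ∀ n, |M lam N n| ≤ 1 := fun n => by
    rw [abs_of_nonneg (M_nonneg lam N n)]; exact M_le_one lam hl N n
  have h1 : lg X (fun n => M lam H n) ≤
      lg X (fun n => (∑ j ∈ range R, M lam N (n + N * j)) / R + N / H) := by
    apply lg_mono
    intro n _
    exact (M_rest_le lam hl N H n hN hNH).trans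
      (add_le_add (M_mul_le lam N R n (by omega) hR0) le_rfl)
  have h2 : lg X (fun n => (∑ j ∈ range R, M lam N (n + N * j)) / R + N / H) =
      (∑ j ∈ range R, lg X (fun n => M lam N (n + N * j))) / R +
        (N / H : ℝ) * lg X (fun _ => 1) := by
    rw [lg_add X (fun n => (∑ j ∈ range R, M lam N (n + N * j)) / R) (fun _ => (N / H : ℝ)),
      lg_const X (N / H : ℝ)]
    congr 1
    have : (fun n => (∑ j ∈ range R, M lam N (n + N * j)) / (R : ℝ)) =
        fun n => (1 / (R : ℝ)) * (∑ j ∈ range R, M lam N (n + N * j)) := by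
      funext n; ring
    rw [this, lg_mul, lg_sum]
    ring
  have h3 : ∀ j ∈ range R, lg X (fun n => M lam N (n + N * j)) ≤
      lg X (fun n => M lam N n) + 3 * (1 + Real.log H) := by
    intro j hj
    have hj' : j < R := mem_range.mp hj
    have h4 := lg_shift X (N * j) (fun n => M lam N n) hMabs
    have h5 := (abs_le.mp h4).2
    have h6 : N * j ≤ H := le_trans (Nat.mul_le_mul_left N hj'.le) hNR
    have h7 : hs (N * j) ≤ 1 + Real.log H := (hs_mono h6).trans (hs_le H)
    linarith
  have h8 : (∑ j ∈ range R, lg X (fun n => M lam N (n + N * j))) / R ≤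
      lg X (fun n => M lam N n) + 3 * (1 + Real.log H) := by
    rw [div_le_iff₀ hRr]
    refine (sum_le_sum h3).trans (le_of_eq ?_)
    rw [sum_const, card_range, nsmul_eq_mul]
    ring
  have h9 : lg X (fun _ => 1) ≤ 1 + Real.log X := lg_one_le X
  have h10 : (N / H : ℝ) ≤ 1 := by
    rw [div_le_one hHr]; exact_mod_cast hNH
  have h11 : (0 : ℝ) ≤ N / H := by positivity
  have h12 : (N / H : ℝ) * lg X (fun _ => 1) ≤ N / H * Real.log X + 1 := by
    have := mul_le_mul_of_nonneg_left h9 h11
    nlinarith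
  have h13 : (0 : ℝ) ≤ N / H * Real.log X := mul_nonneg h11 hlogX
  rw [h2] at h1
  linarith

end Pool.Agent.H78.N4
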